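import Pool.Agent.Helper54.DI.StmtsB

namespace Pool.Agent.Helper90.DI

open Pool.Agent.Helper54.DI

theorem st_CHB : ST_CHB := by
  intro r AP s J hr hAP h0 hstep j
  induction j with
  | zero =>
    intro _
    rw [h0]
    refine ⟨?_, ?_⟩
    · norm_num
      linarith
    · norm_num
      linarith
  | succ j ih =>
    intro hj
    obtain ⟨ih1, ih2⟩ := ih (by omega)
    obtain ⟨a0, _, _, _, c0, _, h1, h2⟩ := hAP _ _ _ (hstep j (by omega))
    set X : ℝ := 2 ^ (2 * 2 ^ j) with hX
    set Y : ℝ := 2 ^ (6 * 2 ^ j) with hY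
    have eX : (2 : ℝ) ^ (2 * 2 ^ (j + 1)) = X ^ 2 := by
      rw [hX, ← pow_mul]
      congr 1
      ring
    have eY : (2 : ℝ) ^ (6 * 2 ^ (j + 1)) = Y ^ 2 := by
      rw [hY, ← pow_mul]
      congr 1
      ring
    have hXp : 0 < X := by rw [hX]; positivity
    have hYp : 0 < Y := by rw [hY]; positivity
    rw [eX, eY]
    set a := s j with ha
    set c := s (j + 1) with hc
    have hA : (a * X) * (a * X) ≤ (r / 3) * (r / 3) := by
      have hp : 0 ≤ a * X := by positivity
      have : a * X ≤ r / 3 := by linarith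
      exact mul_le_mul this this hp (by positivity)
    have hB : (3 * r) * (3 * r) ≤ (a * Y) * (a * Y) := by
      have hp : 0 ≤ 3 * r := by positivity
      exact mul_le_mul ih2 ih2 hp (by positivity)
    have h2' : r * c * X ^ 2 ≤ 3 * (a * a) * X ^ 2 := mul_le_mul_of_nonneg_right h2 (by positivity)
    have h1' : (a * a) * Y ^ 2 ≤ 3 * (r * c) * Y ^ 2 := mul_le_mul_of_nonneg_right h1 (by positivity)
    refine ⟨?_, ?_⟩
    · have : r * (c * X ^ 2) ≤ r * (r / 3) := by nlinarith
      have := le_of_mul_le_mul_left this hr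
      linarith
    · have : r * (3 * r) ≤ r * (c * Y ^ 2) := by nlinarith
      exact le_of_mul_le_mul_left this hr

end Pool.Agent.Helper90.DI
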